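import Pool.Agent.Lib.MP_e7fbd4_ag.Exact
import Pool.Agent.Lib.MP_e7fbd4_ag.MatP
import Pool.Agent.Lib.MP_e7fbd4_ag.O.Fin
import Pool.Agent.Lib.MP_e7fbd4_ag.Off.DGLink
import Pool.Agent.Lib.MP_e7fbd4_ag.Q.Link
import Pool.Agent.Lib.MP_e7fbd4_ag.Tower

/-!
# The Quillen-Lichtenbaum dimension of a smooth dg algebra can be infinite

There is a smooth connective dg algebra `R` over `ℂ` such that for all `m ≥ 2` the comparison maps
`K_n(H_0 R; ℤ/m) → K^top_n(H_0 R; ℤ/m)` fail to be bijective in arbitrarily large degrees `n`.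

* dg algebras, smoothness, `H_0`: `Lib/MP_e7fbd4_ag/Off/DG.lean`;
* the algebra `AX` (9 generators, 17 relations): `Lib/MP_e7fbd4_ag/X/Alg.lean`;
* `K_n(A; ℤ/m)`, `K^st_n(A; ℤ/m)`, `K^top_n(A; ℤ/m)` (`n = k + 2`) and the comparison map:
  `Lib/MP_e7fbd4_ag/Q/Defs.lean` (with `O/Basic.lean`, `O/E1.lean`, `O/T1.lean`, `O/B1.lean`,
  `O/B2.lean`).
-/

set_option autoImplicit false

namespace Pool.Agent.Results.MP_e7fbd4_ag.QLDimension

open Pool.Agent.Lib.MP_e7fbd4_ag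

/-- The same for every theory: for every family of functors `T_k` from `ℂ`-algebras to abelian
groups with traces `T_k(M_W(B)) → T_k(B)` and natural isomorphisms `T_k ≅ T_{k+2}`, and for all
natural homomorphisms `c_k : K_{k+2}(-; ℤ/m) → T_k`, there are arbitrarily large `k` such that `c_k`
is not bijective at the algebra `AX`. -/
theorem every_theory (m : ℕ) (hm : 2 ≤ m) (T : ℕ → AlgFunctor)
    (hT : ∀ k, Nonempty (NatIso (T k) (T (k + 2)))) (htr : ∀ k, HasTrace (T k))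
    (c : (k : ℕ) → NatHom (O.KGF O.Kind.alg m k) (T k)) (d : ℕ) :
    ∃ k, d ≤ k ∧ ¬ Function.Bijective ((c k).app X.AX) := by
  have : NeZero m := ⟨by omega⟩
  exact O.official_general m hm (v1_of m w1 (ex3_KV m)) (v2_of m w2 (ex4_KV m)) (matProp_hK m)
    exists_retX T hT htr c d

/-- **The Quillen-Lichtenbaum dimension of a smooth category can be infinite.** There is a smooth
connective dg algebra `R` over `ℂ` with `H_0(R) = A` (`A = AX`) such that for every `m ≥ 2`, in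
arbitrarily large degrees `n = k + 2` the comparison map
`K_n(A; ℤ/m) → K^top_n(A; ℤ/m) = colim_j K^st_{n+2j}(A; ℤ/m)` is not bijective. -/
theorem result :
    ∃ R : Off.DGAlgebra, R.IsSmooth ∧ R.IsConnective ∧ (∃ π : R.A →ₐ[ℂ] X.AX, R.IsH0 π) ∧
      ∀ m : ℕ, 2 ≤ m → ∀ d : ℕ, ∃ k, d ≤ k ∧ ¬ Function.Bijective (Q.comparison m k X.AX) := by
  obtain ⟨R, hs, hc, π, hπ⟩ := X.exists_smooth_AX
  refine ⟨Off.ofDG R, Off.ofDG_isSmooth hs, Off.ofDG_isConnective hc, ⟨π, Off.ofDG_isH0 hπ⟩, ?_⟩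
  intro m hm d
  have : NeZero m := ⟨by omega⟩
  obtain ⟨k, hk, h⟩ := O.official_of m hm (v1_of m w1 (ex3_KV m)) (v2_of m w2 (ex4_KV m))
    (matProp_hK m) exists_retX d
  exact ⟨k, hk, fun h1 => h ((Q.comparison_bij_iff m k X.AX).1 h1)⟩

end Pool.Agent.Results.MP_e7fbd4_ag.QLDimension
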